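import Pool.Agent.Helper79.GG.OrdE

/-! # Module ORD: orders of `R` along the loci `v (i+1) = v (i-1)` -/

set_option autoImplicit false

namespace Pool.Agent.Helper92.GG

open MvPolynomial
open Pool.Agent.Helper49.Girth (cl ty mem_cl mem_cl' coe_cl subset_cl mem_cl_of_mem cl_le_cl cl_mono
  root_mem_cl aeval_mem ty_zero ty_succ ty_add ty_two ty_add_two ty_not)

universe u

/-- the exponent of a reference configuration is positive -/
theorem ORD_pos {K L : Type u} [Field K] [Field L] [Algebra K L] (w : KVal K L) {ρ τ : L}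
    {Q : ℕ} {B : ℤ} (hQ : 0 < Q) (hρ : w.V.valuation ρ < 1) (hτ0 : τ ≠ 0)
    (hτ : w.V.valuation τ < 1) (h : w.V.valuation ρ ^ Q = w.V.valuation τ ^ B) : 0 < B := by
  by_contra hB
  obtain ⟨k, hk⟩ : ∃ k : ℕ, B = -(k : ℤ) := ⟨B.natAbs, by omega⟩
  rw [hk, zpow_neg, zpow_natCast] at h
  have h1 : w.V.valuation ρ ^ Q < 1 := pow_lt_one₀ zero_le' hρ hQ.ne'
  have h2 : w.V.valuation τ ≠ 0 := (Valuation.ne_zero_iff _).mpr hτ0
  have h3 : w.V.valuation τ ^ k ≤ 1 := pow_le_one₀ zero_le' hτ.le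
  have h4 : (1 : w.V.ValueGroup) ≤ (w.V.valuation τ ^ k)⁻¹ :=
    (one_le_inv₀ (zero_lt_iff.mpr (pow_ne_zero k h2))).mpr h3
  rw [← h] at h4
  exact absurd h1 (not_lt.mpr h4)

theorem ORD_one (hVGS : ST_VGS.{u}) (hPL6 : ST_PL6.{u}) (hGNB : ST_GNB.{u})
    (hENDS : ST_ENDS.{u}) (hPL1 : ST_PL1.{u}) (hPL3 : ST_PL3.{u}) (hIRR : ST_IRR.{u})
    (hLD : ST_LD.{u}) (hPI : ST_PI.{u}) (hLOC : ST_LOC.{u}) (hTYPE : ST_TYPE.{u})
    {K : Type u} [Field K] [IsAlgClosed K] {n m : ℕ} (S : SysT K n m) (D : RData S)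
    (σ : Bool) (i : ℕ) :
    ∃ A B : ℕ, 0 < A ∧ 0 < B ∧ ∀ (L : Type u) [Field L] [Algebra K L] (w : KVal K L)
      (v : ℕ → Fin n → L), Config S w σ i v →
      w.V.valuation (aeval (Sum.elim (v 0) (v (m + 1))) (D.R σ)) ^ A =
        w.V.valuation (v (i + 1) (S.t (ty σ (i + 1))) - v (i - 1) (S.t (ty σ (i + 1)))) ^ B := by
  by_cases hex : ∃ (L : Type u) (_ : Field L) (_ : Algebra K L) (w : KVal K L)
    (v : ℕ → Fin n → L), Config S w σ i v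
  swap
  · refine ⟨1, 1, one_pos, one_pos, ?_⟩
    intro L _ _ w v hc
    exact absurd ⟨L, _, _, w, v, hc⟩ hex
  obtain ⟨L, iF, iA, w, v, hc⟩ := hex
  obtain ⟨L₁, i1, i2, i3, w₁, v₁, hT₁, hAC₁, hE₁, hv₁, h₁⟩ :=
    ORD_extend hVGS hPL6 S w σ i v hc
  obtain ⟨ξ₀, Q, B, f, g, hξ₀, hQ, hf, hg, e⟩ :=
    ORD_ref hGNB hENDS hPL1 hPL3 hIRR hLD hPI hLOC D h₁
  have hself := ORD_transport hGNB hENDS hPL1 hPL3 hTYPE D h₁ h₁ ξ₀ hξ₀ Q B f g hf hg e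
  have h1 := h₁.one_le
  have h2 := h₁.le_m
  have hB : 0 < B := by
    refine ORD_pos w₁ hQ ?_ ?_ ?_ hself
    · have hmem : ∀ k : Fin n ⊕ Fin n, Sum.elim (v₁ 0) (v₁ (m + 1)) k ∈ w₁.V := by
        rintro (c | c)
        · exact h₁.pre.mem 0 (by omega) c
        · exact h₁.pre.mem (m + 1) (by omega) c
      exact (ORD_red_eq_zero_iff w₁ (ORD_aeval_red w₁ _ hmem (D.R σ)).1).mp (ORD_rho_red D h₁)
    · intro h0
      apply ORD_xit hGNB hENDS hPL1 h₁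
      rw [sub_eq_zero.mp h0]
      exact mem_cl_of_mem (Or.inl
        (ORD_mem_pts.mpr ⟨i - 1, Set.mem_Iic.mpr (by omega), _, rfl⟩))
    · have m1 := h₁.pre.mem (i + 1) (by omega) (S.t (ty σ (i + 1)))
      have m2 := h₁.pre.mem (i - 1) (by omega) (S.t (ty σ (i + 1)))
      rw [← ORD_red_eq_zero_iff w₁ (sub_mem m1 m2), ORD_red_sub w₁ m1 m2, sub_eq_zero]
      exact h₁.back' _
  obtain ⟨B', rfl⟩ : ∃ B' : ℕ, B = (B' : ℤ) := ⟨B.toNat, by omega⟩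
  refine ⟨Q, B', hQ, by omega, ?_⟩
  intro L' _ _ w' v' hc'
  obtain ⟨L₂, j1, j2, j3, w₂, v₂, hT₂, hAC₂, hE₂, hv₂, h₂⟩ :=
    ORD_extend hVGS hPL6 S w' σ i v' hc'
  have key := ORD_transport hGNB hENDS hPL1 hPL3 hTYPE D h₁ h₂ ξ₀ hξ₀ Q B' f g hf hg e
  rw [zpow_natCast] at key
  apply ((hPL6 K L' L₂ w').2 w₂ hE₂).2
  have e1 : algebraMap L' L₂ (aeval (Sum.elim (v' 0) (v' (m + 1))) (D.R σ)) =
      aeval (Sum.elim (v₂ 0) (v₂ (m + 1))) (D.R σ) := by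
    have h3 := comp_aeval_apply (Sum.elim (v' 0) (v' (m + 1))) (IsScalarTower.toAlgHom K L' L₂)
      (D.R σ)
    have h4 : (fun k => (IsScalarTower.toAlgHom K L' L₂) (Sum.elim (v' 0) (v' (m + 1)) k)) =
        Sum.elim (v₂ 0) (v₂ (m + 1)) := by
      funext k
      rcases k with c | c
      · exact (hv₂ 0 (by omega) c).symm
      · exact (hv₂ (m + 1) le_rfl c).symm
    rw [h4] at h3
    exact h3
  rw [e1, map_sub, ← hv₂ (i + 1) (by omega), ← hv₂ (i - 1) (by omega)]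
  exact key

theorem st_ORD (hVGS : ST_VGS.{u}) (hPL6 : ST_PL6.{u}) (hGNB : ST_GNB.{u})
    (hENDS : ST_ENDS.{u}) (hPL1 : ST_PL1.{u}) (hPL3 : ST_PL3.{u}) (hIRR : ST_IRR.{u})
    (hLD : ST_LD.{u}) (hPI : ST_PI.{u}) (hLOC : ST_LOC.{u}) (hTYPE : ST_TYPE.{u}) :
    ST_ORD.{u} := by
  classical
  intro K _ _ n m S D
  have h := ORD_one hVGS hPL6 hGNB hENDS hPL1 hPL3 hIRR hLD hPI hLOC hTYPE S D
  choose A B hA hB hord using h
  obtain ⟨P, hP⟩ : ∃ P : ℕ, P = (∏ i ∈ Finset.range (m + 1), A true i) *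
    ∏ i ∈ Finset.range (m + 1), A false i := ⟨_, rfl⟩
  have hPpos : 0 < P := by
    rw [hP]
    exact Nat.mul_pos (Finset.prod_pos fun i _ => hA true i)
      (Finset.prod_pos fun i _ => hA false i)
  have hdvd : ∀ (σ : Bool) (i : ℕ), i ≤ m → A σ i ∣ P := by
    intro σ i hi
    have hmem : i ∈ Finset.range (m + 1) := Finset.mem_range.mpr (by omega)
    rw [hP]
    cases σ
    · exact (Finset.dvd_prod_of_mem _ hmem).mul_left _
    · exact (Finset.dvd_prod_of_mem _ hmem).mul_right _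
  refine ⟨{
    A := P
    B := fun σ i => if 1 ≤ i ∧ i ≤ m then B σ i * (P / A σ i) else 0
    A_pos := hPpos
    B_zero := ?_
    B_end := ?_
    B_pos := ?_
    ord := ?_ }⟩
  · intro σ
    simp
  · intro σ
    simp
  · intro σ i h1 h2
    rw [if_pos ⟨h1, h2⟩]
    exact Nat.mul_pos (hB σ i) (Nat.div_pos (Nat.le_of_dvd hPpos (hdvd σ i h2)) (hA σ i))
  · intro L _ _ w σ i v hc
    have h1 := hc.one_le
    have h2 := hc.le_m
    rw [if_pos ⟨h1, h2⟩, pow_mul, ← hord σ i L w v hc, ← pow_mul,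
      Nat.mul_div_cancel' (hdvd σ i h2)]

end Pool.Agent.Helper92.GG
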