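import Pool.Agent.Helper92.GG.Stmts
import Pool.Agent.Helper92.GG.RK

/-! # Orders: auxiliary facts on walks and residues -/

set_option autoImplicit false

namespace Pool.Agent.Helper92.GG

open MvPolynomial
open Pool.Agent.Helper49.Girth (cl ty mem_cl mem_cl' coe_cl subset_cl mem_cl_of_mem cl_le_cl cl_mono
  root_mem_cl aeval_mem ty_zero ty_succ ty_add ty_two ty_add_two ty_not)

universe u

section walks

variable {K : Type u} [Field K] {n : ℕ} {P : Ideal (MvPolynomial (Fin n ⊕ Fin n) K)}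
  {L : Type u} [Field L] [Algebra K L]

theorem ORD_edge_symm {σ : Bool} {x y : Fin n → L} (h : Edge P σ x y) : Edge P (!σ) y x := by
  cases σ <;> exact h

theorem ORD_edge_vtx {σ : Bool} {x y : Fin n → L} (h : Edge P σ x y) : Vtx P σ x := by
  unfold Edge at h
  unfold Vtx
  ext f
  rw [RingHom.mem_ker, Ideal.mem_comap, ← h, RingHom.mem_ker]
  cases σ
  · change aeval x f = 0 ↔ aeval (Sum.elim y x) (rename Sum.inr f) = 0
    rw [aeval_rename, Sum.elim_comp_inr]
  · change aeval x f = 0 ↔ aeval (Sum.elim x y) (rename Sum.inl f) = 0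
    rw [aeval_rename, Sum.elim_comp_inl]

theorem ORD_edge_map_iff {L' : Type u} [Field L'] [Algebra K L'] (θ : L →ₐ[K] L') {σ : Bool}
    {x y : Fin n → L} :
    Edge P σ (fun c => θ (x c)) (fun c => θ (y c)) ↔ Edge P σ x y := by
  unfold Edge
  have h1 : Sum.elim (cond σ (fun c => θ (x c)) (fun c => θ (y c)))
      (cond σ (fun c => θ (y c)) (fun c => θ (x c))) =
      fun i => θ (Sum.elim (cond σ x y) (cond σ y x) i) := by
    funext i
    cases σ <;> cases i <;> rfl
  have h2 : RingHom.ker (aeval (R := K) (Sum.elim (cond σ (fun c => θ (x c)) (fun c => θ (y c)))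
      (cond σ (fun c => θ (y c)) (fun c => θ (x c))))) =
      RingHom.ker (aeval (R := K) (Sum.elim (cond σ x y) (cond σ y x))) := by
    ext f
    rw [RingHom.mem_ker, RingHom.mem_ker, h1]
    exact (conj_of_algHom θ (Sum.elim (cond σ x y) (cond σ y x)) f).symm
  rw [h2]

theorem ORD_edge_map {L' : Type u} [Field L'] [Algebra K L'] (θ : L →ₐ[K] L') {σ : Bool}
    {x y : Fin n → L} (h : Edge P σ x y) :
    Edge P σ (fun c => θ (x c)) (fun c => θ (y c)) := (ORD_edge_map_iff θ).mpr h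

theorem ORD_pts_finite (v : ℕ → Fin n → L) {I : Set ℕ} (hI : I.Finite) : (pts v I).Finite :=
  Set.Finite.biUnion hI fun _ _ => Set.finite_range _

theorem ORD_pts_mono (v : ℕ → Fin n → L) {I J : Set ℕ} (h : I ⊆ J) : pts v I ⊆ pts v J :=
  Set.biUnion_subset_biUnion_left h

theorem ORD_range_sub (v : ℕ → Fin n → L) {I : Set ℕ} {i : ℕ} (hi : i ∈ I) :
    Set.range (v i) ⊆ pts v I := Set.subset_biUnion_of_mem (u := fun i => Set.range (v i)) hi

theorem ORD_mem_pts {v : ℕ → Fin n → L} {I : Set ℕ} {a : L} :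
    a ∈ pts v I ↔ ∃ i ∈ I, ∃ c, v i c = a := by
  unfold pts
  simp only [Set.mem_iUnion, Set.mem_range, exists_prop]

theorem ORD_walk_tail {σ : Bool} {r a b : ℕ} {v : ℕ → Fin n → L} (h : IsWalk P σ r v)
    (hab : a + b ≤ r) : IsWalk P (ty σ a) b (fun j => v (a + j)) := by
  intro i hi
  have := h (a + i) (by omega)
  rw [ty_add] at this
  exact this

theorem ORD_walk_vtx {σ : Bool} {r : ℕ} {v : ℕ → Fin n → L} (h : IsWalk P σ r v) (hr : 1 ≤ r)
    {j : ℕ} (hj : j ≤ r) : Vtx P (ty σ j) (v j) := by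
  rcases Nat.lt_or_ge j r with h1 | h1
  · exact ORD_edge_vtx (h j h1)
  · obtain rfl : j = r := le_antisymm hj h1
    obtain ⟨k, rfl⟩ : ∃ k, j = k + 1 := ⟨j - 1, by omega⟩
    exact ORD_edge_vtx (ORD_edge_symm (h k (by omega)))

end walks

section sys

variable {K : Type u} [Field K] [IsAlgClosed K] {n m : ℕ} (S : Sys K n m 1)
  {L : Type u} [Field L] [Algebra K L]

theorem ORD_walk_rkV {σ : Bool} {r : ℕ} {v : ℕ → Fin n → L} (h : IsWalk S.P σ r v) (hr : 1 ≤ r)
    {j : ℕ} (hj : j ≤ r) : rk K (Set.range (v j)) = m := by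
  rcases Nat.lt_or_ge j r with h1 | h1
  · rw [S.rkV L _ _ _ (h j h1), mul_one]
  · obtain rfl : j = r := le_antisymm hj h1
    obtain ⟨k, rfl⟩ : ∃ k, j = k + 1 := ⟨j - 1, by omega⟩
    rw [S.rkV L _ _ _ (ORD_edge_symm (h k (by omega))), mul_one]

theorem ORD_step {σ : Bool} {x y : Fin n → L} (h : Edge S.P σ x y) {A : Set L} (hA : A.Finite)
    (hx : Set.range x ⊆ cl K A) : rk K (A ∪ Set.range y) ≤ rk K A + 1 := by
  have h1 := rk_submod (K := K) (Set.finite_range x) hA (Set.finite_range y)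
  have h2 := S.rkV L _ _ _ h
  have h3 := S.rkE L _ _ _ h
  have h4 : rk K (Set.range x ∪ A) = rk K A := by
    rw [Set.union_comm, rk_union_of_subset_cl hx]
  have h5 : rk K (A ∪ Set.range y) ≤ rk K (Set.range x ∪ A ∪ Set.range y) :=
    rk_mono (((Set.finite_range x).union hA).union (Set.finite_range y))
      (Set.union_subset_union_left _ Set.subset_union_right)
  rw [h2, h3, h4] at h1
  omega

/-- forward rank estimate -/
theorem ORD_fwd {σ : Bool} {r : ℕ} {v : ℕ → Fin n → L} (h : IsWalk S.P σ r v) {A : Set L}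
    (hA : A.Finite) {a b : ℕ} (hab : a ≤ b) (hb : b ≤ r) :
    rk K (A ∪ pts v (Set.Iic b)) ≤ rk K (A ∪ pts v (Set.Iic a)) + (b - a) := by
  induction b, hab using Nat.le_induction with
  | base => simp
  | succ b hab ih =>
    have h1 := ih (by omega)
    have h2 := ORD_step S (h b (by omega)) (A := A ∪ pts v (Set.Iic b))
      (hA.union (ORD_pts_finite v (Set.finite_Iic b)))
      (fun a ha => mem_cl_of_mem (Or.inr (ORD_range_sub v (i := b) (by simp) ha)))
    have h3 : A ∪ pts v (Set.Iic (b + 1)) ⊆ A ∪ pts v (Set.Iic b) ∪ Set.range (v (b + 1)) := by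
      rintro a (ha | ha)
      · exact Or.inl (Or.inl ha)
      · obtain ⟨i, hi, c, rfl⟩ := ORD_mem_pts.mp ha
        rcases Nat.lt_or_ge i (b + 1) with h4 | h4
        · exact Or.inl (Or.inr (ORD_mem_pts.mpr ⟨i, Set.mem_Iic.mpr (by omega), c, rfl⟩))
        · have : i = b + 1 := le_antisymm hi h4
          subst this
          exact Or.inr ⟨c, rfl⟩
    have h4 := rk_mono (K := K) ((hA.union (ORD_pts_finite v (Set.finite_Iic b))).union
      (Set.finite_range (v (b + 1)))) h3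
    omega

theorem ORD_fwd0 {σ : Bool} {r : ℕ} {v : ℕ → Fin n → L} (h : IsWalk S.P σ r v) (hr : 1 ≤ r)
    {b : ℕ} (hb : b ≤ r) : rk K (pts v (Set.Iic b)) ≤ m + b := by
  have h1 := ORD_fwd S h Set.finite_empty (Nat.zero_le b) hb
  have h2 : pts v (Set.Iic 0) = Set.range (v 0) := by
    ext a
    rw [ORD_mem_pts]
    constructor
    · rintro ⟨i, hi, c, rfl⟩
      have : i = 0 := Nat.le_zero.mp hi
      subst this
      exact ⟨c, rfl⟩
    · rintro ⟨c, rfl⟩
      exact ⟨0, Set.mem_Iic.mpr le_rfl, c, rfl⟩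
  rw [Set.empty_union, Set.empty_union, h2, ORD_walk_rkV S h hr (Nat.zero_le r)] at h1
  omega

/-- backward rank estimate -/
theorem ORD_bwd {σ : Bool} {r : ℕ} {v : ℕ → Fin n → L} (h : IsWalk S.P σ r v) {A : Set L}
    (hA : A.Finite) {j : ℕ} (hj : j ≤ r) (hs : Set.range (v j) ⊆ A) :
    rk K (A ∪ pts v (Set.Iic j)) ≤ rk K A + j := by
  induction j generalizing A with
  | zero =>
    apply le_of_eq
    rw [rk_union_of_subset_cl, add_zero]
    intro a ha
    obtain ⟨i, hi, c, rfl⟩ := ORD_mem_pts.mp ha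
    have : i = 0 := Nat.le_zero.mp hi
    subst this
    exact mem_cl_of_mem (hs ⟨c, rfl⟩)
  | succ j ih =>
    have h1 := ORD_step S (ORD_edge_symm (h j (by omega))) hA (fun a ha => mem_cl_of_mem (hs ha))
    have h2 := ih (A := A ∪ Set.range (v j)) (hA.union (Set.finite_range _)) (by omega)
      Set.subset_union_right
    have h3 : A ∪ pts v (Set.Iic (j + 1)) ⊆ A ∪ Set.range (v j) ∪ pts v (Set.Iic j) := by
      rintro a (ha | ha)
      · exact Or.inl (Or.inl ha)
      · obtain ⟨i, hi, c, rfl⟩ := ORD_mem_pts.mp ha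
        rcases Nat.lt_or_ge i (j + 1) with h4 | h4
        · exact Or.inr (ORD_mem_pts.mpr ⟨i, Set.mem_Iic.mpr (by omega), c, rfl⟩)
        · have : i = j + 1 := le_antisymm hi h4
          subst this
          exact Or.inl (Or.inl (hs ⟨c, rfl⟩))
    have h4 := rk_mono (K := K) ((hA.union (Set.finite_range _)).union
      (ORD_pts_finite v (Set.finite_Iic j))) h3
    omega

end sys

section places

variable {K L : Type u} [Field K] [Field L] [Algebra K L] (w : KVal K L)

theorem ORD_red_of_mem {a : L} (h : a ∈ w.V) : w.red a = IsLocalRing.residue w.V ⟨a, h⟩ := by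
  unfold KVal.red
  rw [dif_pos h]

theorem ORD_red_sub {a b : L} (ha : a ∈ w.V) (hb : b ∈ w.V) :
    w.red (a - b) = w.red a - w.red b := by
  rw [ORD_red_of_mem w ha, ORD_red_of_mem w hb, ORD_red_of_mem w (sub_mem ha hb)]
  exact map_sub (IsLocalRing.residue w.V) (⟨a, ha⟩ : w.V) ⟨b, hb⟩

theorem ORD_red_eq_zero_iff {a : L} (ha : a ∈ w.V) : w.red a = 0 ↔ w.V.valuation a < 1 := by
  rw [ORD_red_of_mem w ha]
  have h1 := ValuationSubring.valuation_lt_one_iff w.V (⟨a, ha⟩ : w.V)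
  have h2 : w.V.valuation ((⟨a, ha⟩ : w.V) : L) = w.V.valuation a := rfl
  rw [← h2, ← h1]
  exact IsLocalRing.residue_eq_zero_iff _

theorem ORD_val_eq_one {a : L} (ha : a ∈ w.V) (h : w.red a ≠ 0) : w.V.valuation a = 1 := by
  apply le_antisymm
  · exact (w.V.valuation_le_one_iff a).mpr ha
  · rw [Ne, ORD_red_eq_zero_iff w ha, not_lt] at h
    exact h

/-- the ring homomorphism into the valuation ring -/
noncomputable def ORD_lift {F : Type u} [Field F] (θ : F →+* L) (hθ : ∀ a, θ a ∈ w.V) :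
    F →+* w.V := θ.codRestrict w.V hθ

theorem ORD_eval₂ {F : Type u} [Field F] {ι : Type} (θ : F →+* L) (hθ : ∀ a, θ a ∈ w.V)
    (x : ι → L) (hx : ∀ i, x i ∈ w.V) (f : MvPolynomial ι F) :
    ∃ h : eval₂ θ x f ∈ w.V, w.red (eval₂ θ x f) =
      eval₂ ((IsLocalRing.residue w.V).comp (ORD_lift w θ hθ))
        (fun i => (w.red (x i) : IsLocalRing.ResidueField w.V)) f := by
  have h1 : eval₂ θ x f =
      ((eval₂ (ORD_lift w θ hθ) (fun i => (⟨x i, hx i⟩ : w.V)) f : w.V) : L) := by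
    have := eval₂_comp_left w.V.subtype (ORD_lift w θ hθ) (fun i => (⟨x i, hx i⟩ : w.V)) f
    exact this.symm
  have h2 : eval₂ θ x f ∈ w.V := by
    rw [h1]; exact Subtype.mem _
  refine ⟨h2, ?_⟩
  rw [ORD_red_of_mem w h2]
  have h3 : (⟨eval₂ θ x f, h2⟩ : w.V) =
      eval₂ (ORD_lift w θ hθ) (fun i => (⟨x i, hx i⟩ : w.V)) f := Subtype.ext h1
  rw [h3, eval₂_comp_left (IsLocalRing.residue w.V) (ORD_lift w θ hθ)]
  congr 1
  funext i
  exact (ORD_red_of_mem w (hx i)).symm

theorem ORD_aeval_red {ι : Type} (x : ι → L) (hx : ∀ i, x i ∈ w.V) (f : MvPolynomial ι K) :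
    aeval x f ∈ w.V ∧ w.red (aeval x f) = aeval (fun i => w.red (x i)) f := by
  obtain ⟨h, h'⟩ := ORD_eval₂ w (algebraMap K L) w.hK x hx f
  exact ⟨h, h'⟩

theorem ORD_red_image_pts {n : ℕ} (v : ℕ → Fin n → L) (I : Set ℕ) :
    w.red '' pts v I = pts (fun j => w.redv (v j)) I := by
  ext a
  rw [ORD_mem_pts]
  constructor
  · rintro ⟨b, hb, rfl⟩
    obtain ⟨i, hi, c, rfl⟩ := ORD_mem_pts.mp hb
    exact ⟨i, hi, c, rfl⟩
  · rintro ⟨i, hi, c, rfl⟩
    exact ⟨v i c, ORD_mem_pts.mpr ⟨i, hi, c, rfl⟩, rfl⟩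

end places

end Pool.Agent.Helper92.GG
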