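import Pool.Agent.Helper79.GG.OrdA

/-! # Orders: extension of configurations by generic steps -/

set_option autoImplicit false

namespace Pool.Agent.Helper92.GG

open MvPolynomial
open Pool.Agent.Helper49.Girth (cl ty mem_cl mem_cl' coe_cl subset_cl mem_cl_of_mem cl_le_cl cl_mono
  root_mem_cl aeval_mem ty_zero ty_succ ty_add ty_two ty_add_two ty_not)

universe u

/-- a walk with its residue walk, of residue rank at least `d` -/
structure ORD_Pre {K : Type u} [Field K] [IsAlgClosed K] {n m : ℕ} (S : SysT K n m)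
    {L : Type u} [Field L] [Algebra K L] (w : KVal K L) (σ : Bool) (r : ℕ)
    (v : ℕ → Fin n → L) (d : ℕ) : Prop where
  walk : IsWalk S.P σ r v
  mem : ∀ j ≤ r, ∀ c, v j c ∈ w.V
  rwalk : IsWalk S.P σ r (fun j => w.redv (v j))
  rk_le : d ≤ rk K (w.red '' pts v (Set.Iic r))

theorem ORD_step1 (hVGS : ST_VGS.{u}) (hPL6 : ST_PL6.{u}) {K : Type u} [Field K] [IsAlgClosed K]
    {n m : ℕ} (S : SysT K n m) {L : Type u} [Field L] [Algebra K L] (w : KVal K L) (σ : Bool)
    (r : ℕ) (v : ℕ → Fin n → L) (d : ℕ) (hr : 1 ≤ r) (h : ORD_Pre S w σ r v d) :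
    ∃ (L' : Type u) (_ : Field L') (_ : Algebra K L') (_ : Algebra L L') (w' : KVal K L')
      (v' : ℕ → Fin n → L'), IsScalarTower K L L' ∧ IsAlgClosed L' ∧ w.Ext w' ∧
      (∀ j ≤ r, ∀ c, v' j c = algebraMap L L' (v j c)) ∧
      ORD_Pre S w' σ (r + 1) v' (d + 1) := by
  classical
  have hv1 : Vtx S.P (ty σ r) (v r) := ORD_walk_vtx h.walk hr le_rfl
  have hv2 : Vtx S.P (ty σ r) (w.redv (v r)) := ORD_walk_vtx h.rwalk hr le_rfl
  obtain ⟨L', i1, i2, i3, w', y, hT, hAC, hE, hy, he, hre, hgen⟩ :=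
    hVGS K n m S L w (ty σ r) (v r) (h.mem r le_rfl) hv1 hv2
  obtain ⟨⟨j, hj⟩, -⟩ := (hPL6 K L L' w).2 w' hE
  have hjv : ∀ i ≤ r, w'.redv (fun c => algebraMap L L' (v i c)) =
      fun c => j (w.redv (v i) c) := by
    intro i hi
    funext c
    exact (hj _ (h.mem i hi c)).symm
  refine ⟨L', i1, i2, i3, w', fun j c => if j ≤ r then algebraMap L L' (v j c) else y c, hT,
    hAC, hE, ?_, ?_⟩
  · intro j hj c
    simp only [hj, if_true]
  · have hle : ∀ i ≤ r, (fun c => if i ≤ r then algebraMap L L' (v i c) else y c) =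
        fun c => algebraMap L L' (v i c) := by
      intro i hi
      funext c
      simp only [hi, if_true]
    have hlast : (fun c => if r + 1 ≤ r then algebraMap L L' (v (r + 1) c) else y c) = y := by
      funext c
      have : ¬ (r + 1 ≤ r) := by omega
      simp only [this, if_false]
    constructor
    · intro i hi
      rcases Nat.lt_or_ge i r with h1 | h1
      · have h2 := ORD_edge_map (IsScalarTower.toAlgHom K L L') (h.walk i h1)
        simp only [hle i h1.le, hle (i + 1) h1]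
        exact h2
      · obtain rfl : i = r := by omega
        simp only [hle i le_rfl, hlast]
        exact he
    · intro i hi c
      by_cases h1 : i ≤ r
      · simp only [h1, if_true]
        exact (hE _).mpr (h.mem i h1 c)
      · simp only [h1, if_false]
        exact hy c
    · intro i hi
      rcases Nat.lt_or_ge i r with h1 | h1
      · have h2 := ORD_edge_map j (h.rwalk i h1)
        simp only [hle i h1.le, hle (i + 1) h1]
        rw [hjv i h1.le, hjv (i + 1) h1]
        exact h2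
      · obtain rfl : i = r := by omega
        simp only [hle i le_rfl, hlast]
        exact hre
    · have h1 : w'.red (y (S.t (!(ty σ r)))) ∉
          cl K (w'.red '' (algebraMap L L' '' pts v (Set.Iic r))) := by
        apply hgen _ (ORD_pts_finite v (Set.finite_Iic r))
        intro a ha
        obtain ⟨i, hi, c, rfl⟩ := ORD_mem_pts.mp ha
        exact h.mem i hi c
      have h2 : w'.red '' (algebraMap L L' '' pts v (Set.Iic r)) =
          j '' (w.red '' pts v (Set.Iic r)) := by
        ext b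
        constructor
        · rintro ⟨_, ⟨a, ha, rfl⟩, rfl⟩
          obtain ⟨i, hi, c, rfl⟩ := ORD_mem_pts.mp ha
          exact ⟨_, ⟨v i c, ha, rfl⟩, hj _ (h.mem i hi c)⟩
        · rintro ⟨_, ⟨a, ha, rfl⟩, rfl⟩
          obtain ⟨i, hi, c, rfl⟩ := ORD_mem_pts.mp ha
          exact ⟨_, ⟨v i c, ha, rfl⟩, (hj _ (h.mem i hi c)).symm⟩
      have hfin : (w'.red '' (algebraMap L L' '' pts v (Set.Iic r))).Finite :=
        ((ORD_pts_finite v (Set.finite_Iic r)).image _).image _
      have h3 := rk_insert_of_notMem hfin h1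
      have h4 : rk K (w'.red '' (algebraMap L L' '' pts v (Set.Iic r))) =
          rk K (w.red '' pts v (Set.Iic r)) := by
        rw [h2, rk_image_of_injective]
      have h5 := h.rk_le
      have h6 : insert (w'.red (y (S.t (!(ty σ r)))))
          (w'.red '' (algebraMap L L' '' pts v (Set.Iic r))) ⊆
          w'.red '' pts (fun j c => if j ≤ r then algebraMap L L' (v j c) else y c)
            (Set.Iic (r + 1)) := by
        rintro b (rfl | ⟨_, ⟨a, ha, rfl⟩, rfl⟩)
        · refine ⟨_, ORD_mem_pts.mpr ⟨r + 1, by simp, S.t (!(ty σ r)), rfl⟩, ?_⟩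
          have : ¬ (r + 1 ≤ r) := by omega
          simp only [this, if_false]
        · obtain ⟨i, hi, c, rfl⟩ := ORD_mem_pts.mp ha
          have hi' : i ≤ r := hi
          refine ⟨_, ORD_mem_pts.mpr ⟨i, Set.mem_Iic.mpr (by omega), c, rfl⟩, ?_⟩
          simp only [hi', if_true]
      have h7 := rk_mono (K := K) (((ORD_pts_finite
        (fun j c => if j ≤ r then algebraMap L L' (v j c) else y c)
        (Set.finite_Iic (r + 1))).image w'.red)) h6
      omega

theorem ORD_steps (hVGS : ST_VGS.{u}) (hPL6 : ST_PL6.{u}) {K : Type u} [Field K] [IsAlgClosed K]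
    {n m : ℕ} (S : SysT K n m) {L : Type u} [Field L] [Algebra K L] (w : KVal K L) (σ : Bool)
    (r : ℕ) (v : ℕ → Fin n → L) (d : ℕ) (hr : 1 ≤ r) (h : ORD_Pre S w σ r v d) (k : ℕ)
    (hk : 1 ≤ k) :
    ∃ (L' : Type u) (_ : Field L') (_ : Algebra K L') (_ : Algebra L L') (w' : KVal K L')
      (v' : ℕ → Fin n → L'), IsScalarTower K L L' ∧ IsAlgClosed L' ∧ w.Ext w' ∧
      (∀ j ≤ r, ∀ c, v' j c = algebraMap L L' (v j c)) ∧
      ORD_Pre S w' σ (r + k) v' (d + k) := by
  induction k, hk using Nat.le_induction with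
  | base => exact ORD_step1 hVGS hPL6 S w σ r v d hr h
  | succ k hk ih =>
    obtain ⟨L1, i1, i2, i3, w1, v1, hT, hAC, hE, hv, hp⟩ := ih
    obtain ⟨L2, i4, i5, i6, w2, v2, hT2, hAC2, hE2, hv2, hp2⟩ :=
      ORD_step1 hVGS hPL6 S w1 σ (r + k) v1 (d + k) (by omega) hp
    let i7 : Algebra L L2 := ((algebraMap L1 L2).comp (algebraMap L L1)).toAlgebra
    have hmap : ∀ a : L, algebraMap L L2 a = algebraMap L1 L2 (algebraMap L L1 a) := fun _ => rfl
    refine ⟨L2, i4, i5, i7, w2, v2, ?_, hAC2, ?_, ?_, hp2⟩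
    · apply IsScalarTower.of_algebraMap_eq
      intro x
      rw [hmap, ← IsScalarTower.algebraMap_apply K L L1, ← IsScalarTower.algebraMap_apply K L1 L2]
    · intro a
      rw [hmap, hE2, hE]
    · intro j hj c
      rw [hmap, ← hv j hj c, ← hv2 j (by omega) c]

/-- An extended configuration. -/
structure ORD_XC {K : Type u} [Field K] [IsAlgClosed K] {n m : ℕ} (S : SysT K n m)
    {L : Type u} [Field L] [Algebra K L] (w : KVal K L) (σ : Bool) (i : ℕ)
    (v : ℕ → Fin n → L) : Prop where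
  one_le : 1 ≤ i
  le_m : i ≤ m
  pre : ORD_Pre S w σ (m + 1 + i) v (2 * m + i)
  back : w.redv (v (i + 1)) = w.redv (v (i - 1))
  ne : v (i + 1) ≠ v (i - 1)

theorem ORD_extend (hVGS : ST_VGS.{u}) (hPL6 : ST_PL6.{u}) {K : Type u} [Field K]
    [IsAlgClosed K] {n m : ℕ} (S : SysT K n m) {L : Type u} [Field L] [Algebra K L]
    (w : KVal K L) (σ : Bool) (i : ℕ) (v : ℕ → Fin n → L) (h : Config S w σ i v) :
    ∃ (L' : Type u) (_ : Field L') (_ : Algebra K L') (_ : Algebra L L') (w' : KVal K L')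
      (v' : ℕ → Fin n → L'), IsScalarTower K L L' ∧ IsAlgClosed L' ∧ w.Ext w' ∧
      (∀ j ≤ m + 1, ∀ c, v' j c = algebraMap L L' (v j c)) ∧
      ORD_XC S w' σ i v' := by
  have h1 := h.one_le
  have h2 := h.le_m
  obtain ⟨L', i1, i2, i3, w', v', hT, hAC, hE, hv, hp⟩ :=
    ORD_steps hVGS hPL6 S w σ (m + 1) v (2 * m) (by omega) ⟨h.walk, h.mem, h.rwalk, h.rk_le⟩ i h1
  obtain ⟨⟨j, hj⟩, -⟩ := (hPL6 K L L' w).2 w' hE
  have hjv : ∀ k ≤ m + 1, ∀ c, w'.redv (v' k) c = j (w.redv (v k) c) := by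
    intro k hk c
    change w'.red (v' k c) = j (w.red (v k c))
    rw [hv k hk c]
    exact (hj _ (h.mem k hk c)).symm
  refine ⟨L', i1, i2, i3, w', v', hT, hAC, hE, hv, h1, h2, hp, ?_, ?_⟩
  · funext c
    rw [hjv _ (by omega), hjv _ (by omega), h.back]
  · intro heq
    apply h.ne
    funext c
    have h3 := congrFun heq c
    rw [hv _ (by omega), hv _ (by omega)] at h3
    exact (algebraMap L L').injective h3

end Pool.Agent.Helper92.GG
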