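import Pool.Agent.Helper79.GG.OrdB

/-! # Orders: geometry of extended configurations -/

set_option autoImplicit false

namespace Pool.Agent.Helper92.GG

open MvPolynomial
open Pool.Agent.Helper49.Girth (cl ty mem_cl mem_cl' coe_cl subset_cl mem_cl_of_mem cl_le_cl cl_mono
  root_mem_cl aeval_mem ty_zero ty_succ ty_add ty_two ty_add_two ty_not)

universe u

section

variable {K : Type u} [Field K] [IsAlgClosed K] {n m : ℕ} {S : SysT K n m}
  {L : Type u} [Field L] [Algebra K L] {w : KVal K L} {σ : Bool} {i : ℕ} {v : ℕ → Fin n → L}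

theorem ORD_XC.rrk (h : ORD_XC S w σ i v) :
    2 * m + i ≤ rk K (pts (fun j => w.redv (v j)) (Set.Iic (m + 1 + i))) := by
  have := h.pre.rk_le
  rwa [ORD_red_image_pts] at this

theorem ORD_XC.back' (h : ORD_XC S w σ i v) (c : Fin n) :
    w.redv (v (i + 1)) c = w.redv (v (i - 1)) c := congrFun h.back c

/-- the residue walk from `v (i+1)` on is non-backtracking -/
theorem ORD_rtail (hGNB : ST_GNB.{u}) (h : ORD_XC S w σ i v) :
    NB m (fun j => w.redv (v (i + 1 + j))) := by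
  have h1 := h.one_le
  have h2 := h.le_m
  have hw := h.pre.rwalk
  have hrk := h.rrk
  have hwt : IsWalk S.P (ty σ (i + 1)) m (fun j => w.redv (v (i + 1 + j))) :=
    ORD_walk_tail (v := fun j => w.redv (v j)) hw (by omega)
  obtain ⟨W, hW⟩ : ∃ W : Set w.κ, W = pts (fun j => w.redv (v (i + 1 + j))) (Set.Iic m) :=
    ⟨_, rfl⟩
  have hWf : W.Finite := by
    rw [hW]
    exact ORD_pts_finite _ (Set.finite_Iic m)
  have hi1 : Set.range (w.redv (v (i + 1))) ⊆ W := by
    rw [hW]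
    exact ORD_range_sub (fun j => w.redv (v (i + 1 + j))) (i := 0) (by simp)
  have h3 : rk K (W ∪ Set.range (w.redv (v i))) ≤ rk K W + 1 :=
    ORD_step S.toSys (ORD_edge_symm (hw i (by omega))) hWf
      (fun a ha => mem_cl_of_mem (hi1 ha))
  have h4 := ORD_bwd S.toSys hw (A := W ∪ Set.range (w.redv (v i)))
    (hWf.union (Set.finite_range _)) (j := i - 1) (by omega) (by
      change Set.range (w.redv (v (i - 1))) ⊆ _
      rw [← h.back]
      exact hi1.trans Set.subset_union_left)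
  have h5 : pts (fun j => w.redv (v j)) (Set.Iic (m + 1 + i)) ⊆
      W ∪ Set.range (w.redv (v i)) ∪ pts (fun j => w.redv (v j)) (Set.Iic (i - 1)) := by
    intro a ha
    obtain ⟨j, hj, c, rfl⟩ := ORD_mem_pts.mp ha
    have hj' : j ≤ m + 1 + i := hj
    rcases Nat.lt_trichotomy j i with h6 | h6 | h6
    · exact Or.inr (ORD_mem_pts.mpr ⟨j, Set.mem_Iic.mpr (by omega), c, rfl⟩)
    · subst h6
      exact Or.inl (Or.inr ⟨c, rfl⟩)
    · refine Or.inl (Or.inl ?_)
      rw [hW]
      refine ORD_mem_pts.mpr ⟨j - (i + 1), Set.mem_Iic.mpr (by omega), c, ?_⟩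
      have : i + 1 + (j - (i + 1)) = j := by omega
      simp only [this]
  have h6 := rk_mono (K := K) ((hWf.union (Set.finite_range (w.redv (v i)))).union
    (ORD_pts_finite _ (Set.finite_Iic (i - 1)))) h5
  apply hGNB K n m 1 S.toSys w.κ (ty σ (i + 1)) m _ hwt
  rw [← hW]
  omega

theorem ORD_tail_nb (hGNB : ST_GNB.{u}) (h : ORD_XC S w σ i v) :
    NB m (fun j => v (i + 1 + j)) := by
  intro j hj heq
  apply ORD_rtail hGNB h j hj
  have : v (i + 1 + j) = v (i + 1 + (j + 2)) := heq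
  change w.redv (v (i + 1 + j)) = w.redv (v (i + 1 + (j + 2)))
  rw [this]

theorem ORD_tail_walk (h : ORD_XC S w σ i v) :
    IsWalk S.P (ty σ (i + 1)) m (fun j => v (i + 1 + j)) :=
  ORD_walk_tail h.pre.walk (by omega)

/-- ranks of `T` and of its residues -/
theorem ORD_rkT (hGNB : ST_GNB.{u}) (hENDS : ST_ENDS.{u}) (h : ORD_XC S w σ i v) :
    2 * m + i ≤ rk K (w.red '' (pts v (Set.Iic i) ∪ Set.range (v (m + 1 + i)))) ∧
    rk K (pts v (Set.Iic i) ∪ Set.range (v (m + 1 + i))) ≤ 2 * m + i := by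
  have h1 := h.one_le
  have h2 := h.le_m
  have hw := h.pre.rwalk
  have hrk := h.rrk
  have hwt : IsWalk S.P (ty σ (i + 1)) m (fun j => w.redv (v (i + 1 + j))) :=
    ORD_walk_tail (v := fun j => w.redv (v j)) hw (by omega)
  constructor
  · refine hrk.trans (rk_le_of_subset_cl ?_ ?_)
    · exact ((ORD_pts_finite v (Set.finite_Iic i)).union (Set.finite_range _)).image _
    · intro a ha
      obtain ⟨j, hj, c, rfl⟩ := ORD_mem_pts.mp ha
      have hj' : j ≤ m + 1 + i := hj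
      rcases Nat.lt_or_ge i j with h6 | h6
      · have h7 := hENDS K n m 1 S.toSys w.κ (ty σ (i + 1)) m _ le_rfl hwt (ORD_rtail hGNB h)
          (j - (i + 1)) (by omega) c
        have e : i + 1 + (j - (i + 1)) = j := by omega
        simp only [e] at h7
        refine cl_mono ?_ h7
        rintro b (⟨d, rfl⟩ | ⟨d, rfl⟩)
        · change w.redv (v (i + 1 + 0)) d ∈ _
          rw [add_zero, h.back' d]
          exact ⟨v (i - 1) d, Or.inl (ORD_mem_pts.mpr ⟨i - 1, Set.mem_Iic.mpr (by omega), d, rfl⟩),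
            rfl⟩
        · change w.redv (v (i + 1 + m)) d ∈ _
          have e2 : i + 1 + m = m + 1 + i := by omega
          rw [e2]
          exact ⟨v (m + 1 + i) d, Or.inr ⟨d, rfl⟩, rfl⟩
      · exact mem_cl_of_mem ⟨v j c, Or.inl (ORD_mem_pts.mpr ⟨j, h6, c, rfl⟩), rfl⟩
  · have h3 := ORD_fwd0 S.toSys h.pre.walk (by omega) (b := i) (by omega)
    have h4 := ORD_walk_rkV S.toSys h.pre.walk (by omega) (j := m + 1 + i) le_rfl
    have h5 := rk_union_le (K := K) (ORD_pts_finite v (Set.finite_Iic i))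
      (Set.finite_range (v (m + 1 + i)))
    omega

theorem ORD_memT (h : ORD_XC S w σ i v) :
    ∀ a ∈ pts v (Set.Iic i) ∪ Set.range (v (m + 1 + i)), a ∈ w.V := by
  rintro a (ha | ⟨c, rfl⟩)
  · obtain ⟨j, hj, c, rfl⟩ := ORD_mem_pts.mp ha
    have hj' : j ≤ i := hj
    exact h.pre.mem j (by omega) c
  · exact h.pre.mem _ le_rfl c

theorem ORD_finT (m i : ℕ) (v : ℕ → Fin n → L) :
    (pts v (Set.Iic i) ∪ Set.range (v (m + 1 + i))).Finite :=
  (ORD_pts_finite v (Set.finite_Iic i)).union (Set.finite_range _)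

theorem ORD_triv (hGNB : ST_GNB.{u}) (hENDS : ST_ENDS.{u}) (hPL1 : ST_PL1.{u})
    (h : ORD_XC S w σ i v) :
    w.Triv (cl K (pts v (Set.Iic i) ∪ Set.range (v (m + 1 + i)))) := by
  obtain ⟨h1, h2⟩ := ORD_rkT hGNB hENDS h
  exact hPL1 K L w _ (ORD_finT m i v) (ORD_memT h) (h2.trans h1)

theorem ORD_rkT_eq (hGNB : ST_GNB.{u}) (hENDS : ST_ENDS.{u}) (hPL3 : ST_PL3.{u})
    (h : ORD_XC S w σ i v) :
    rk K (pts v (Set.Iic i) ∪ Set.range (v (m + 1 + i))) = 2 * m + i := by
  obtain ⟨h1, h2⟩ := ORD_rkT hGNB hENDS h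
  have h3 := (hPL3 K L w _ (ORD_finT m i v) (ORD_memT h)).1
  omega

/-- `v (i+1)` is not algebraic over `T` -/
theorem ORD_xi_not (hGNB : ST_GNB.{u}) (hENDS : ST_ENDS.{u}) (hPL1 : ST_PL1.{u})
    (h : ORD_XC S w σ i v) :
    ¬ (Set.range (v (i + 1)) ⊆ cl K (pts v (Set.Iic i) ∪ Set.range (v (m + 1 + i)))) := by
  intro hsub
  have h1 := h.one_le
  have h2 := h.le_m
  have ht := ORD_triv hGNB hENDS hPL1 h
  apply h.ne
  funext c
  by_contra hne
  have h3 : v (i - 1) c ∈ cl K (pts v (Set.Iic i) ∪ Set.range (v (m + 1 + i))) :=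
    mem_cl_of_mem (Or.inl (ORD_mem_pts.mpr ⟨i - 1, Set.mem_Iic.mpr (by omega), c, rfl⟩))
  have h4 : v (i + 1) c - v (i - 1) c ∈ cl K (pts v (Set.Iic i) ∪ Set.range (v (m + 1 + i))) :=
    sub_mem (hsub ⟨c, rfl⟩) h3
  apply (ht _ h4).2 (sub_ne_zero.mpr hne)
  rw [ORD_red_sub w (h.pre.mem _ (by omega) c) (h.pre.mem _ (by omega) c), sub_eq_zero]
  exact h.back' c

theorem ORD_rkTxi (hGNB : ST_GNB.{u}) (hENDS : ST_ENDS.{u}) (hPL1 : ST_PL1.{u})
    (hPL3 : ST_PL3.{u}) (h : ORD_XC S w σ i v) :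
    rk K (pts v (Set.Iic i) ∪ Set.range (v (m + 1 + i)) ∪ Set.range (v (i + 1))) =
      2 * m + i + 1 := by
  have h1 := h.one_le
  have h2 := h.le_m
  have h3 := ORD_rkT_eq hGNB hENDS hPL3 h
  have h4 := ORD_step S.toSys (h.pre.walk i (by omega)) (ORD_finT m i v) (fun a ha =>
    mem_cl_of_mem (Or.inl (ORD_range_sub v (i := i) (by simp) ha)))
  have h5 : ¬ (rk K (pts v (Set.Iic i) ∪ Set.range (v (m + 1 + i)) ∪ Set.range (v (i + 1))) ≤
      rk K (pts v (Set.Iic i) ∪ Set.range (v (m + 1 + i)))) := fun hh =>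
    ORD_xi_not hGNB hENDS hPL1 h
      (subset_cl_of_rk_union_le (ORD_finT m i v) (Set.finite_range _) hh)
  omega

/-- the set `T` together with `v (i+1)` -/
theorem ORD_Tunion (m i : ℕ) (v : ℕ → Fin n → L) :
    pts v (Set.Iic i) ∪ Set.range (v (m + 1 + i)) ∪ Set.range (v (i + 1)) =
      pts v (Set.Iic (i + 1)) ∪ Set.range (v (m + 1 + i)) := by
  ext a
  simp only [Set.mem_union, ORD_mem_pts, Set.mem_Iic]
  constructor
  · rintro ((⟨j, hj, c, rfl⟩ | h) | ⟨c, rfl⟩)
    · exact Or.inl ⟨j, by omega, c, rfl⟩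
    · exact Or.inr h
    · exact Or.inl ⟨i + 1, le_rfl, c, rfl⟩
  · rintro (⟨j, hj, c, rfl⟩ | h)
    · rcases Nat.lt_or_ge i j with h1 | h1
      · have : j = i + 1 := by omega
        subst this
        exact Or.inr ⟨c, rfl⟩
      · exact Or.inl (Or.inl ⟨j, h1, c, rfl⟩)
    · exact Or.inl (Or.inr h)

theorem ORD_rkT' (hGNB : ST_GNB.{u}) (hENDS : ST_ENDS.{u}) (hPL1 : ST_PL1.{u})
    (hPL3 : ST_PL3.{u}) (h : ORD_XC S w σ i v) :
    rk K (pts v (Set.Iic (i + 1)) ∪ Set.range (v (m + 1 + i))) = m + (i + 1) + m := by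
  rw [← ORD_Tunion, ORD_rkTxi hGNB hENDS hPL1 hPL3 h]
  omega

/-- all vertices after `v (i+1)` are algebraic over `T, v (i+1)` -/
theorem ORD_tail_mem (hGNB : ST_GNB.{u}) (hENDS : ST_ENDS.{u}) (h : ORD_XC S w σ i v) :
    ∀ j ≤ m, ∀ c, v (i + 1 + j) c ∈
      cl K (pts v (Set.Iic (i + 1)) ∪ Set.range (v (m + 1 + i))) := by
  intro j hj c
  have h7 := hENDS K n m 1 S.toSys L (ty σ (i + 1)) m _ le_rfl (ORD_tail_walk h)
    (ORD_tail_nb hGNB h) j hj c
  refine cl_mono ?_ h7
  rintro b (⟨d, rfl⟩ | ⟨d, rfl⟩)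
  · exact Or.inl (ORD_mem_pts.mpr ⟨i + 1, by simp, d, rfl⟩)
  · refine Or.inr ⟨d, ?_⟩
    have e2 : i + 1 + m = m + 1 + i := by omega
    change v (m + 1 + i) d = v (i + 1 + m) d
    rw [e2]

/-- the ends of the `(m+1)`-walk are independent -/
theorem ORD_rk_ends (hGNB : ST_GNB.{u}) (hENDS : ST_ENDS.{u}) (hPL1 : ST_PL1.{u})
    (hPL3 : ST_PL3.{u}) (h : ORD_XC S w σ i v) :
    rk K (Set.range (v 0) ∪ Set.range (v (m + 1))) = 2 * m := by
  have h1 := h.one_le
  have h2 := h.le_m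
  have hw := h.pre.walk
  have h3 := ORD_rkT' hGNB hENDS hPL1 hPL3 h
  have h4 : rk K (pts v (Set.Iic (i + 1)) ∪ Set.range (v (m + 1 + i))) ≤
      rk K (pts v (Set.Iic (m + 1 + i))) := by
    apply rk_mono (ORD_pts_finite v (Set.finite_Iic _))
    apply Set.union_subset
    · exact ORD_pts_mono v (Set.Iic_subset_Iic.mpr (by omega))
    · exact ORD_range_sub v (by simp)
  have h5 := ORD_fwd S.toSys hw Set.finite_empty (a := m + 1) (b := m + 1 + i) (by omega) le_rfl
  rw [Set.empty_union, Set.empty_union] at h5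
  have h6 : 2 * m + 1 ≤ rk K (pts v (Set.Iic (m + 1))) := by omega
  have hw' : IsWalk S.P σ (m + 1) v := fun j hj => hw j (by omega)
  have hnb : NB (m + 1) v := by
    apply hGNB K n m 1 S.toSys L σ (m + 1) v hw'
    omega
  have h7 := hENDS K n m 1 S.toSys L (ty σ 1) m (fun j => v (1 + j)) le_rfl
    (ORD_walk_tail hw' (by omega)) (by
      intro j hj heq
      apply hnb (1 + j) (by omega)
      exact heq)
  have h8 : pts v (Set.Iic (m + 1)) ⊆
      cl K (Set.range (v 0) ∪ Set.range (v (m + 1)) ∪ Set.range (v 1)) := by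
    intro a ha
    obtain ⟨j, hj, c, rfl⟩ := ORD_mem_pts.mp ha
    have hj' : j ≤ m + 1 := hj
    rcases Nat.eq_zero_or_pos j with rfl | hpos
    · exact mem_cl_of_mem (Or.inl (Or.inl ⟨c, rfl⟩))
    · have h9 := h7 (j - 1) (by omega) c
      have e : 1 + (j - 1) = j := by omega
      have e' : 1 + m = m + 1 := by omega
      simp only [e, e', add_zero] at h9
      refine cl_mono ?_ h9
      rintro b (hb | hb)
      · exact Or.inr hb
      · exact Or.inl (Or.inr hb)
  have hf : (Set.range (v 0) ∪ Set.range (v (m + 1)) : Set L).Finite :=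
    (Set.finite_range _).union (Set.finite_range _)
  have h9 := rk_le_of_subset_cl (K := K) (hf.union (Set.finite_range (v 1))) h8
  have h10 := ORD_step S.toSys (hw 0 (by omega)) hf (fun a ha => mem_cl_of_mem (Or.inl ha))
  have h11 := rk_union_le (K := K) (Set.finite_range (v 0)) (Set.finite_range (v (m + 1)))
  have h12 := ORD_walk_rkV S.toSys hw' (by omega) (j := 0) (by omega)
  have h13 := ORD_walk_rkV S.toSys hw' (by omega) (j := m + 1) le_rfl
  rw [zero_add] at h10
  omega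

theorem ORD_rho_ne (hGNB : ST_GNB.{u}) (hENDS : ST_ENDS.{u}) (hPL1 : ST_PL1.{u})
    (hPL3 : ST_PL3.{u}) (D : RData S) (h : ORD_XC S w σ i v) :
    aeval (Sum.elim (v 0) (v (m + 1))) (D.R σ) ≠ 0 := by
  have h1 := h.one_le
  have h2 := h.le_m
  have hm := S.two_le
  apply D.nonvan L σ
  · exact ORD_walk_vtx h.pre.walk (by omega) (j := 0) (by omega)
  · have h3 := ORD_walk_vtx h.pre.walk (by omega) (j := m + 1) (by omega)
    have e : m + 1 = (m - 1) + 2 := by omega
    have e2 : ty σ (m + 1) = ty σ (m - 1) := by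
      rw [e, ty_add_two]
    rw [e2] at h3
    exact h3
  · exact ORD_rk_ends hGNB hENDS hPL1 hPL3 h

/-- the residue of `R` at the ends vanishes -/
theorem ORD_rho_red (D : RData S) (h : ORD_XC S w σ i v) :
    w.red (aeval (Sum.elim (v 0) (v (m + 1))) (D.R σ)) = 0 := by
  classical
  have h1 := h.one_le
  have h2 := h.le_m
  have hm := S.two_le
  have hw := h.pre.rwalk
  have hmem : ∀ k : Fin n ⊕ Fin n, Sum.elim (v 0) (v (m + 1)) k ∈ w.V := by
    rintro (c | c)
    · exact h.pre.mem 0 (by omega) c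
    · exact h.pre.mem (m + 1) (by omega) c
  rw [(ORD_aeval_red w _ hmem (D.R σ)).2]
  have e1 : (fun k => w.red (Sum.elim (v 0) (v (m + 1)) k)) =
      Sum.elim (w.redv (v 0)) (w.redv (v (m + 1))) := by
    funext k
    cases k <;> rfl
  rw [e1]
  set vb : ℕ → Fin n → w.κ := fun j => w.redv (v j) with hvb
  set u : ℕ → Fin n → w.κ := fun j => if j ≤ i - 1 then vb j else vb (j + 2) with hu
  have hback : vb (i + 1) = vb (i - 1) := h.back
  have hu1 : ∀ j ≤ i - 1, u j = vb j := by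
    intro j hj
    simp only [hu, hj, if_true]
  have hu2 : ∀ j, i - 1 ≤ j → u j = vb (j + 2) := by
    intro j hj
    rcases Nat.lt_or_ge (i - 1) j with h3 | h3
    · have : ¬ (j ≤ i - 1) := by omega
      simp only [hu, this, if_false]
    · obtain rfl : j = i - 1 := le_antisymm h3 hj
      rw [hu1 _ le_rfl, ← hback]
      congr 1
      omega
  have huw : IsWalk S.P σ (m - 1) u := by
    intro j hj
    rcases Nat.lt_or_ge j (i - 1) with h3 | h3
    · rw [hu1 j h3.le, hu1 (j + 1) h3]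
      exact hw j (by omega)
    · rw [hu2 j h3, hu2 (j + 1) (by omega)]
      have := hw (j + 2) (by omega)
      rw [ty_add_two] at this
      exact this
  have hu0 : u 0 = vb 0 := hu1 0 (Nat.zero_le _)
  have hum : u (m - 1) = vb (m + 1) := by
    rw [hu2 (m - 1) (by omega)]
    congr 1
    omega
  have hvan := D.van w.κ σ u huw (by
    rw [hu0]
    exact ORD_walk_vtx hw (by omega) (j := 0) (by omega)) (by
    have hfin := ORD_pts_finite u (Set.finite_Iic (m - 1))
    have h3 := ORD_fwd0 S.toSys huw (by omega) (b := m - 1) le_rfl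
    have h4 := h.rrk
    have h5 := ORD_fwd S.toSys hw Set.finite_empty (a := m + 1) (b := m + 1 + i) (by omega) le_rfl
    rw [Set.empty_union, Set.empty_union] at h5
    have h6 := ORD_step S.toSys (hw (i - 1) (by omega)) hfin (fun a ha => mem_cl_of_mem (by
      have : Set.range (u (i - 1)) ⊆ pts u (Set.Iic (m - 1)) :=
        ORD_range_sub u (Set.mem_Iic.mpr (by omega))
      rw [hu1 _ le_rfl] at this
      exact this ha))
    have h7 : pts vb (Set.Iic (m + 1)) ⊆
        pts u (Set.Iic (m - 1)) ∪ Set.range (vb (i - 1 + 1)) := by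
      intro a ha
      obtain ⟨j, hj, c, rfl⟩ := ORD_mem_pts.mp ha
      have hj' : j ≤ m + 1 := hj
      rcases Nat.lt_trichotomy j i with h8 | h8 | h8
      · refine Or.inl (ORD_mem_pts.mpr ⟨j, Set.mem_Iic.mpr (by omega), c, ?_⟩)
        rw [hu1 j (by omega)]
      · refine Or.inr ⟨c, ?_⟩
        have : i - 1 + 1 = j := by omega
        rw [this]
      · refine Or.inl (ORD_mem_pts.mpr ⟨j - 2, Set.mem_Iic.mpr (by omega), c, ?_⟩)
        rw [hu2 (j - 2) (by omega)]
        have : j - 2 + 2 = j := by omega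
        rw [this]
    have h8 := rk_mono (K := K) (hfin.union (Set.finite_range (vb (i - 1 + 1)))) h7
    simp only [hvb] at h5 h8 h6
    omega)
  rw [hu0, hum] at hvan
  exact hvan

end

end Pool.Agent.Helper92.GG
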