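import Pool.Agent.Helper79.GG.OrdC

/-! # Orders: the identity for a reference configuration -/

set_option autoImplicit false

namespace Pool.Agent.Helper92.GG

open MvPolynomial
open Pool.Agent.Helper49.Girth (cl ty mem_cl mem_cl' coe_cl subset_cl mem_cl_of_mem cl_le_cl cl_mono
  root_mem_cl aeval_mem ty_zero ty_succ ty_add ty_two ty_add_two ty_not)

universe u

section

variable {K : Type u} [Field K] [IsAlgClosed K] {n m : ℕ} {S : SysT K n m}
  {L : Type u} [Field L] [Algebra K L] {w : KVal K L} {σ : Bool} {i : ℕ} {v : ℕ → Fin n → L}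

theorem ORD_edge_fwd (h : ORD_XC S w σ i v) : Edge S.P (ty σ i) (v i) (v (i + 1)) :=
  h.pre.walk i (by omega)

theorem ORD_edge_bwd (h : ORD_XC S w σ i v) : Edge S.P (ty σ i) (v i) (v (i - 1)) := by
  have h1 := h.one_le
  have h2 := ORD_edge_symm (h.pre.walk (i - 1) (by omega))
  obtain ⟨k, rfl⟩ : ∃ k, i = k + 1 := ⟨i - 1, by omega⟩
  exact h2

theorem ORD_xit (hGNB : ST_GNB.{u}) (hENDS : ST_ENDS.{u}) (hPL1 : ST_PL1.{u})
    (h : ORD_XC S w σ i v) :
    v (i + 1) (S.t (ty σ (i + 1))) ∉ cl K (pts v (Set.Iic i) ∪ Set.range (v (m + 1 + i))) := by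
  intro hmem
  have h1 := ORD_edge_fwd h
  have h2 : v (i + 1) (S.t (ty σ (i + 1))) ∉ cl K (Set.range (v i)) := S.trans L _ _ _ h1
  have h3 := rk_insert_of_notMem (Set.finite_range (v i)) h2
  have h4 := S.rkV L _ _ _ h1
  have h5 := S.rkE L _ _ _ h1
  have h6 : insert (v (i + 1) (S.t (ty σ (i + 1)))) (Set.range (v i)) ⊆
      Set.range (v i) ∪ Set.range (v (i + 1)) := by
    apply Set.insert_subset
    · exact Or.inr ⟨_, rfl⟩
    · exact Set.subset_union_left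
  have h7 := subset_cl_of_rk_le (K := K) ((Set.finite_range (v i)).union
    (Set.finite_range (v (i + 1)))) h6 (by omega)
  apply ORD_xi_not hGNB hENDS hPL1 h
  intro a ha
  refine cl_le_cl ?_ (h7 (Or.inr ha))
  rintro b (rfl | hb)
  · exact hmem
  · exact mem_cl_of_mem (Or.inl (ORD_range_sub v (i := i) (by simp) hb))

theorem ORD_irr (hIRR : ST_IRR.{u}) [IsAlgClosed L] (h : ORD_XC S w σ i v) :
    Conj (cl K (Set.range (v i))) (v (i + 1)) (v (i - 1)) :=
  Conj.of_spec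
    (hIRR K n m 1 S.toSys L (ty σ i) (v i) (v (i + 1)) (v (i - 1)) (ORD_edge_fwd h)
      (ORD_edge_bwd h))
    (hIRR K n m 1 S.toSys L (ty σ i) (v i) (v (i - 1)) (v (i + 1)) (ORD_edge_bwd h)
      (ORD_edge_fwd h))

theorem ORD_spec (hGNB : ST_GNB.{u}) (hENDS : ST_ENDS.{u}) (hPL1 : ST_PL1.{u})
    (hPL3 : ST_PL3.{u}) (hIRR : ST_IRR.{u}) (hLD : ST_LD.{u}) [IsAlgClosed L]
    (h : ORD_XC S w σ i v) :
    Spec (cl K (pts v (Set.Iic i) ∪ Set.range (v (m + 1 + i)))) (v (i + 1)) (v (i - 1)) := by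
  apply hLD K L (Set.range (v i)) _ (Set.finite_range _) (ORD_finT m i v)
    (fun a ha => Or.inl (ORD_range_sub v (i := i) (by simp) ha)) (Fin n) _ _ ?_
    (ORD_irr hIRR h).spec
  rw [ORD_rkTxi hGNB hENDS hPL1 hPL3 h, ORD_rkT_eq hGNB hENDS hPL3 h,
    S.rkV L _ _ _ (ORD_edge_fwd h), S.rkE L _ _ _ (ORD_edge_fwd h)]
  ring

theorem ORD_sub_comp {E F : IntermediateField K L} (hle : E ≤ F) :
    (algebraMap F L).comp (IntermediateField.inclusion hle).toRingHom = algebraMap E L := by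
  apply RingHom.ext
  intro a
  rfl

theorem ORD_sub_aeval {E F : IntermediateField K L} (hle : E ≤ F) {ι : Type} (x : ι → L)
    (p : MvPolynomial ι E) :
    aeval x (map (IntermediateField.inclusion hle).toRingHom p) = aeval x p := by
  rw [aeval_def, eval₂_map, ORD_sub_comp, ← aeval_def]

theorem ORD_sub_val {F : IntermediateField K L} {ι : Type} (x₀ : ι → F) (x : ι → L)
    (hx : ∀ k, (x₀ k : L) = x k) (p : MvPolynomial ι F) :
    aeval x p = algebraMap F L (aeval x₀ p) := by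
  have h5 : x = fun c => algebraMap F L (x₀ c) := funext fun c => (hx c).symm
  rw [h5]
  exact aeval_algebraMap_apply L x₀ p

theorem ORD_vec2 {M : Type u} (y : Fin n → M) (s t : Fin n) : y ∘ ![s, t] = ![y s, y t] := by
  funext k
  refine Fin.cases ?_ (fun k => ?_) k
  · simp
  · refine Fin.cases ?_ (fun k => k.elim0) k
    simp

theorem ORD_vec2' {F : IntermediateField K L} {a b : F} {x y : L} (ha : (a : L) = x)
    (hb : (b : L) = y) (k : Fin 2) : ((![a, b] k : F) : L) = ![x, y] k := by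
  refine Fin.cases ?_ (fun k => ?_) k
  · simpa using ha
  · refine Fin.cases ?_ (fun k => k.elim0) k
    simpa using hb

/-- separability at `v (i-1)` over `T` -/
theorem ORD_sep (hIRR : ST_IRR.{u}) [IsAlgClosed L] (h : ORD_XC S w σ i v)
    (ξ₀ : Fin n → cl K (pts v (Set.Iic i) ∪ Set.range (v (m + 1 + i))))
    (hξ : ∀ c, (ξ₀ c : L) = v (i - 1) c) (c : Fin n) :
    ∃ f : MvPolynomial (Fin 2) (cl K (pts v (Set.Iic i) ∪ Set.range (v (m + 1 + i)))),
      aeval ![v (i + 1) (S.t (ty σ (i + 1))), v (i + 1) c] f = 0 ∧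
      aeval ![ξ₀ (S.t (ty σ (i + 1))), ξ₀ c] (pderiv 1 f) ≠ 0 := by
  obtain ⟨f, hf1, hf2⟩ := S.sep L (ty σ i) (v i) (v (i - 1)) (ORD_edge_bwd h) c
  have hle : cl K (Set.range (v i)) ≤ cl K (pts v (Set.Iic i) ∪ Set.range (v (m + 1 + i))) :=
    cl_mono (fun a ha => Or.inl (ORD_range_sub v (i := i) (by simp) ha))
  refine ⟨map (IntermediateField.inclusion hle).toRingHom f, ?_, ?_⟩
  · rw [ORD_sub_aeval hle]
    have h1 := (ORD_irr hIRR h (rename ![S.t (ty σ (i + 1)), c] f)).mpr (by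
      rw [aeval_rename, ORD_vec2]
      exact hf1)
    rw [aeval_rename, ORD_vec2] at h1
    exact h1
  · intro h0
    apply hf2
    have h1 := ORD_sub_val ![ξ₀ (S.t (ty σ (i + 1))), ξ₀ c]
      ![v (i - 1) (S.t (ty σ (i + 1))), v (i - 1) c] (ORD_vec2' (hξ _) (hξ _))
      (pderiv 1 (map (IntermediateField.inclusion hle).toRingHom f))
    rw [h0, map_zero, pderiv_map, ORD_sub_aeval hle] at h1
    exact h1

/-- powers of `ρ₀` lie in the field generated by `v (i+1)` over `cl T` -/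
theorem ORD_rho_mem (hGNB : ST_GNB.{u}) (hENDS : ST_ENDS.{u}) (hPI : ST_PI.{u})
    [IsAlgClosed L] (h : ORD_XC S w σ i v) (R : MvPolynomial (Fin n ⊕ Fin n) K) :
    ∃ Q : ℕ, 0 < Q ∧ (aeval (Sum.elim (v 0) (v (m + 1))) R) ^ Q ∈
      IntermediateField.adjoin (cl K (pts v (Set.Iic i) ∪ Set.range (v (m + 1 + i))))
        (Set.range (v (i + 1))) := by
  have h1 := h.one_le
  have h2 := h.le_m
  obtain ⟨T, hT⟩ : ∃ T : Set L, T = pts v (Set.Iic i) ∪ Set.range (v (m + 1 + i)) := ⟨_, rfl⟩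
  have hTu := ORD_Tunion m i v
  have htm := ORD_tail_mem hGNB hENDS h
  rw [← hTu] at htm
  rw [← hT] at htm ⊢
  obtain ⟨F, hF⟩ : ∃ F : IntermediateField (cl K T) L,
    F = IntermediateField.adjoin (cl K T) (Set.range (v (i + 1))) := ⟨_, rfl⟩
  rw [← hF]
  have hFT : ∀ a ∈ cl K T, a ∈ F := by
    intro a ha
    exact IntermediateField.algebraMap_mem F (⟨a, ha⟩ : cl K T)
  have hFK : ∀ a : K, algebraMap K L a ∈ F := fun a => hFT _ (IntermediateField.algebraMap_mem _ _)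
  have hFξ : ∀ c, v (i + 1) c ∈ F := by
    intro c
    rw [hF]
    exact IntermediateField.subset_adjoin _ _ ⟨c, rfl⟩
  have hv0 : ∀ c, v 0 c ∈ cl K T := by
    intro c
    rw [hT]
    exact mem_cl_of_mem (Or.inl (ORD_mem_pts.mpr ⟨0, Set.mem_Iic.mpr (Nat.zero_le _), c, rfl⟩))
  have hq : ∀ c, v (m + 1 + i) c ∈ cl K T := by
    intro c
    rw [hT]
    exact mem_cl_of_mem (Or.inr ⟨c, rfl⟩)
  have hzcl : aeval (Sum.elim (v 0) (v (m + 1))) R ∈ cl K (T ∪ Set.range (v (i + 1))) := by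
    apply aeval_mem
    rintro (c | c)
    · exact cl_mono Set.subset_union_left (hv0 c)
    · have h3 := htm (m - i) (by omega) c
      have e : i + 1 + (m - i) = m + 1 := by omega
      rw [e] at h3
      exact h3
  have hAlg : IsAlgebraic F (aeval (Sum.elim (v 0) (v (m + 1))) R) := by
    rw [hF]
    exact mem_cl.mp (cl_cl_mem.mpr hzcl)
  obtain ⟨N, c, hc⟩ := hPI F L _ hAlg (by
    intro τ
    have hτ : ∀ a ∈ F, τ a = a := fun a ha => τ.commutes ⟨a, ha⟩
    let θ : L →ₐ[K] L := { (τ : L →+* L) with commutes' := fun a => hτ _ (hFK a) }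
    have hθ : ∀ a, θ a = τ a := fun _ => rfl
    have hwalk := ORD_tail_walk h
    have hnb := ORD_tail_nb hGNB h
    have huniq := S.uniq L (ty σ (i + 1)) m m (fun j => v (i + 1 + j))
      (fun j c => θ (v (i + 1 + j) c)) (by omega) hwalk
      (fun j hj => ORD_edge_map θ (hwalk j hj)) hnb
      (by
        intro j hj heq
        apply hnb j hj
        funext c
        exact θ.injective (congrFun heq c))
      (by
        funext c
        exact (hτ _ (hFξ c)).symm) rfl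
      (by
        funext c
        have e : i + 1 + m = m + 1 + i := by omega
        change v (i + 1 + m) c = θ (v (i + 1 + m) c)
        rw [e]
        exact (hτ _ (hFT _ (hq c))).symm)
    have h3 := huniq.2 (m - i) (by omega)
    have e : i + 1 + (m - i) = m + 1 := by omega
    simp only [e] at h3
    have h4 : θ (aeval (Sum.elim (v 0) (v (m + 1))) R) =
        aeval (fun k => θ (Sum.elim (v 0) (v (m + 1)) k)) R := comp_aeval_apply _ θ R
    have h5 : (fun k => θ (Sum.elim (v 0) (v (m + 1)) k)) = Sum.elim (v 0) (v (m + 1)) := by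
      funext k
      rcases k with c | c
      · exact hτ _ (hFT _ (hv0 c))
      · exact (congrFun h3 c).symm
    rw [← hθ, h4, h5])
  refine ⟨ringExpChar F ^ N, pow_pos ?_ N, ?_⟩
  · exact expChar_pos F (ringExpChar F)
  · rw [← hc]
    exact c.2

theorem ORD_spec_sub (F : IntermediateField K L) {ι : Type} (ξ ξ' : ι → L) (x₀ : ι → F)
    (hx : ∀ c, (x₀ c : L) = ξ' c) (h : Spec F ξ ξ') : Spec F ξ x₀ := by
  intro f hf
  have h2 := h f hf
  have h5 : ξ' = fun c => algebraMap F L (x₀ c) := funext fun c => (hx c).symm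
  have h4 : aeval ξ' f = algebraMap F L (aeval x₀ f) := by
    rw [h5]
    exact aeval_algebraMap_apply L x₀ f
  rw [h2] at h4
  exact (map_eq_zero_iff _ (algebraMap F L).injective).mp h4.symm

/-- the identity for a reference configuration -/
theorem ORD_ref (hGNB : ST_GNB.{u}) (hENDS : ST_ENDS.{u}) (hPL1 : ST_PL1.{u})
    (hPL3 : ST_PL3.{u}) (hIRR : ST_IRR.{u}) (hLD : ST_LD.{u}) (hPI : ST_PI.{u})
    (hLOC : ST_LOC.{u}) (D : RData S) [IsAlgClosed L] (h : ORD_XC S w σ i v) :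
    ∃ (ξ₀ : Fin n → cl K (pts v (Set.Iic i) ∪ Set.range (v (m + 1 + i)))) (Q : ℕ) (B : ℤ)
      (f g : MvPolynomial (Fin n) (cl K (pts v (Set.Iic i) ∪ Set.range (v (m + 1 + i))))),
      (∀ c, (ξ₀ c : L) = v (i - 1) c) ∧ 0 < Q ∧ aeval ξ₀ f ≠ 0 ∧ aeval ξ₀ g ≠ 0 ∧
      (aeval (Sum.elim (v 0) (v (m + 1))) (D.R σ)) ^ Q * aeval (v (i + 1)) g =
        (v (i + 1) (S.t (ty σ (i + 1))) - v (i - 1) (S.t (ty σ (i + 1)))) ^ B *
          aeval (v (i + 1)) f := by
  have h1 := h.one_le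
  obtain ⟨Q, hQ, hz⟩ := ORD_rho_mem hGNB hENDS hPI h (D.R σ)
  have hρ := ORD_rho_ne hGNB hENDS hPL1 hPL3 D h
  have hmem : ∀ c, v (i - 1) c ∈ cl K (pts v (Set.Iic i) ∪ Set.range (v (m + 1 + i))) :=
    fun c => mem_cl_of_mem (Or.inl (ORD_mem_pts.mpr ⟨i - 1, Set.mem_Iic.mpr (by omega), c, rfl⟩))
  obtain ⟨ξ₀, hξ₀⟩ : ∃ ξ₀ : Fin n → cl K (pts v (Set.Iic i) ∪ Set.range (v (m + 1 + i))),
      ∀ c, (ξ₀ c : L) = v (i - 1) c := ⟨fun c => ⟨_, hmem c⟩, fun c => rfl⟩
  have hspec := ORD_spec_sub _ _ _ ξ₀ hξ₀ (ORD_spec hGNB hENDS hPL1 hPL3 hIRR hLD h)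
  have hne : v (i + 1) (S.t (ty σ (i + 1))) ≠
      algebraMap (cl K (pts v (Set.Iic i) ∪ Set.range (v (m + 1 + i)))) L
        (ξ₀ (S.t (ty σ (i + 1)))) := by
    intro heq
    apply ORD_xit hGNB hENDS hPL1 h
    rw [heq]
    exact (ξ₀ (S.t (ty σ (i + 1)))).2
  obtain ⟨B, f, g, hf, hg, e⟩ := hLOC (cl K (pts v (Set.Iic i) ∪ Set.range (v (m + 1 + i)))) L n
    (v (i + 1)) ξ₀ (S.t (ty σ (i + 1))) hspec hne (ORD_sep hIRR h ξ₀ hξ₀) _ hz
    (pow_ne_zero _ hρ)
  refine ⟨ξ₀, Q, B, f, g, hξ₀, hQ, hf, hg, ?_⟩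
  rw [← hξ₀]
  exact e

end

end Pool.Agent.Helper92.GG
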