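import Pool.Agent.Helper79.GG.OrdD

/-! # Orders: transport of the identity -/

set_option autoImplicit false

namespace Pool.Agent.Helper92.GG

open MvPolynomial
open Pool.Agent.Helper49.Girth (cl ty mem_cl mem_cl' coe_cl subset_cl mem_cl_of_mem cl_le_cl cl_mono
  root_mem_cl aeval_mem ty_zero ty_succ ty_add ty_two ty_add_two ty_not)

universe u

section alg

variable {K : Type u} [Field K] {L₁ L₂ : Type u} [Field L₁] [Algebra K L₁] [Field L₂]
  [Algebra K L₂]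

theorem ORD_incl_val {F M : IntermediateField K L₁} (hFM : F ≤ M) {ι : Type} (xi : ι → M)
    (p : MvPolynomial ι F) :
    ((eval₂ (IntermediateField.inclusion hFM).toRingHom xi p : M) : L₁) =
      aeval (fun c => (xi c : L₁)) p := by
  have h1 := eval₂_comp_left (algebraMap M L₁) (IntermediateField.inclusion hFM).toRingHom xi p
  have h2 : (algebraMap M L₁).comp (IntermediateField.inclusion hFM).toRingHom =
      algebraMap F L₁ := by
    apply RingHom.ext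
    intro a
    rfl
  rw [h2] at h1
  exact h1

theorem ORD_tr_core {F M : IntermediateField K L₁} (hFM : F ≤ M) (θ : M →ₐ[K] L₂) {ι : Type}
    (xi : ι → M) (ρM τM : M) (f g : MvPolynomial ι F) (Q : ℕ) (B : ℤ)
    (e : (ρM : L₁) ^ Q * aeval (fun c => (xi c : L₁)) g =
      (τM : L₁) ^ B * aeval (fun c => (xi c : L₁)) f) :
    (θ ρM) ^ Q * eval₂ (θ.toRingHom.comp (IntermediateField.inclusion hFM).toRingHom)
        (fun c => θ (xi c)) g =
      (θ τM) ^ B * eval₂ (θ.toRingHom.comp (IntermediateField.inclusion hFM).toRingHom)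
        (fun c => θ (xi c)) f := by
  have h1 : ρM ^ Q * eval₂ (IntermediateField.inclusion hFM).toRingHom xi g =
      τM ^ B * eval₂ (IntermediateField.inclusion hFM).toRingHom xi f := by
    apply (algebraMap M L₁).injective
    rw [map_mul, map_mul, map_pow, map_zpow₀]
    have h2 := ORD_incl_val hFM xi g
    have h3 := ORD_incl_val hFM xi f
    have h4 : algebraMap M L₁ (eval₂ (IntermediateField.inclusion hFM).toRingHom xi g) =
      aeval (fun c => (xi c : L₁)) g := h2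
    have h5 : algebraMap M L₁ (eval₂ (IntermediateField.inclusion hFM).toRingHom xi f) =
      aeval (fun c => (xi c : L₁)) f := h3
    rw [h4, h5]
    exact e
  have h6 := congrArg θ.toRingHom h1
  rw [map_mul, map_mul, map_pow, map_zpow₀, eval₂_comp_left, eval₂_comp_left] at h6
  exact h6

theorem ORD_tr2 {n : ℕ} {F M : IntermediateField K L₁} (hFM : F ≤ M) (θ : M →ₐ[K] L₂)
    (x0 x1 xi xm : Fin n → M) (R : MvPolynomial (Fin n ⊕ Fin n) K) (t : Fin n)
    (f g : MvPolynomial (Fin n) F) (Q : ℕ) (B : ℤ)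
    (e : (aeval (Sum.elim (fun c => (x0 c : L₁)) (fun c => (x1 c : L₁))) R) ^ Q *
        aeval (fun c => (xi c : L₁)) g =
      ((xi t : L₁) - (xm t : L₁)) ^ B * aeval (fun c => (xi c : L₁)) f) :
    (aeval (Sum.elim (fun c => θ (x0 c)) (fun c => θ (x1 c))) R) ^ Q *
        eval₂ (θ.toRingHom.comp (IntermediateField.inclusion hFM).toRingHom)
          (fun c => θ (xi c)) g =
      (θ (xi t) - θ (xm t)) ^ B *
        eval₂ (θ.toRingHom.comp (IntermediateField.inclusion hFM).toRingHom)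
          (fun c => θ (xi c)) f := by
  have h1 : ((aeval (Sum.elim x0 x1) R : M) : L₁) =
      aeval (Sum.elim (fun c => (x0 c : L₁)) (fun c => (x1 c : L₁))) R := by
    have h3 : M.val (aeval (Sum.elim x0 x1) R) = aeval (fun k => M.val (Sum.elim x0 x1 k)) R :=
      comp_aeval_apply _ M.val R
    have h4 : (fun k => M.val (Sum.elim x0 x1 k)) =
        Sum.elim (fun c => (x0 c : L₁)) (fun c => (x1 c : L₁)) := by
      funext k
      cases k <;> rfl
    rw [h4] at h3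
    exact h3
  have h2 : θ (aeval (Sum.elim x0 x1) R) =
      aeval (Sum.elim (fun c => θ (x0 c)) (fun c => θ (x1 c))) R := by
    have h3 : θ (aeval (Sum.elim x0 x1) R) = aeval (fun k => θ (Sum.elim x0 x1 k)) R :=
      comp_aeval_apply _ θ R
    have h4 : (fun k => θ (Sum.elim x0 x1 k)) =
        Sum.elim (fun c => θ (x0 c)) (fun c => θ (x1 c)) := by
      funext k
      cases k <;> rfl
    rw [h4] at h3
    exact h3
  have key := ORD_tr_core hFM θ xi (aeval (Sum.elim x0 x1) R) (xi t - xm t) f g Q B (by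
    rw [h1]
    exact e)
  rw [h2, map_sub] at key
  exact key

theorem ORD_sub_eval {F : IntermediateField K L₁} (θ : F →+* L₂) {ι : Type} (x₀ : ι → F)
    (p : MvPolynomial ι F) : eval₂ θ (fun c => θ (x₀ c)) p = θ (aeval x₀ p) := by
  have h1 := eval₂_comp_left θ (algebraMap F F) x₀ p
  have h2 : θ.comp (algebraMap F F) = θ := by
    apply RingHom.ext
    intro a
    rfl
  rw [h2] at h1
  exact h1.symm

/-- polynomials with nonzero value at `x₀` take unit values at points with the same residue -/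
theorem ORD_unit (w : KVal K L₂) {F : IntermediateField K L₁} (θ : F →+* L₂) (T : Set L₂)
    (hT : w.Triv (cl K T)) (hθ : ∀ a, θ a ∈ cl K T) {ι : Type} (x₀ : ι → F) (ξ : ι → L₂)
    (hξ : ∀ c, ξ c ∈ w.V) (hr : ∀ c, w.red (ξ c) = w.red (θ (x₀ c))) (p : MvPolynomial ι F)
    (hp : aeval x₀ p ≠ 0) : w.V.valuation (eval₂ θ ξ p) = 1 := by
  have hV : ∀ a, θ a ∈ w.V := fun a => (hT _ (hθ a)).1
  obtain ⟨h1, h2⟩ := ORD_eval₂ w θ hV ξ hξ p
  obtain ⟨h3, h4⟩ := ORD_eval₂ w θ hV (fun c => θ (x₀ c)) (fun c => hV _) p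
  apply ORD_val_eq_one w h1
  have h5 : (fun c => (w.red (ξ c) : IsLocalRing.ResidueField w.V)) =
      fun c => (w.red (θ (x₀ c)) : IsLocalRing.ResidueField w.V) := funext hr
  have h6 : w.red (eval₂ θ ξ p) = w.red (eval₂ θ (fun c => θ (x₀ c)) p) := by
    rw [h2, h4, h5]
  rw [h6, ORD_sub_eval]
  apply (hT _ (hθ _)).2
  exact (map_ne_zero θ).mpr hp

theorem ORD_tr3 (w : KVal K L₂) {n : ℕ} {F M : IntermediateField K L₁} (hFM : F ≤ M)
    (θ : M →ₐ[K] L₂) (x0 x1 xi xm : Fin n → M) (R : MvPolynomial (Fin n ⊕ Fin n) K) (t : Fin n)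
    (f g : MvPolynomial (Fin n) F) (Q : ℕ) (B : ℤ)
    (e : (aeval (Sum.elim (fun c => (x0 c : L₁)) (fun c => (x1 c : L₁))) R) ^ Q *
        aeval (fun c => (xi c : L₁)) g =
      ((xi t : L₁) - (xm t : L₁)) ^ B * aeval (fun c => (xi c : L₁)) f)
    (ξ₀ : Fin n → F) (hξ₀ : ∀ c, (ξ₀ c : L₁) = xm c) (T : Set L₂) (hT : w.Triv (cl K T))
    (hθ : ∀ a : M, (a : L₁) ∈ F → θ a ∈ cl K T) (hxi : ∀ c, θ (xi c) ∈ w.V)
    (hr : ∀ c, w.red (θ (xi c)) = w.red (θ (xm c)))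
    (hf : aeval ξ₀ f ≠ 0) (hg : aeval ξ₀ g ≠ 0) :
    w.V.valuation (aeval (Sum.elim (fun c => θ (x0 c)) (fun c => θ (x1 c))) R) ^ Q =
      w.V.valuation (θ (xi t) - θ (xm t)) ^ B := by
  have key := ORD_tr2 hFM θ x0 x1 xi xm R t f g Q B e
  have hcl : ∀ a : F, (θ.toRingHom.comp (IntermediateField.inclusion hFM).toRingHom) a ∈
      cl K T := fun a => hθ (IntermediateField.inclusion hFM a) a.2
  have h2 : ∀ c, IntermediateField.inclusion hFM (ξ₀ c) = xm c :=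
    fun c => Subtype.ext (hξ₀ c)
  have h3 : ∀ c, (θ.toRingHom.comp (IntermediateField.inclusion hFM).toRingHom) (ξ₀ c) =
      θ (xm c) := fun c => congrArg θ (h2 c)
  have hu := ORD_unit w (θ.toRingHom.comp (IntermediateField.inclusion hFM).toRingHom) T hT hcl
    ξ₀ (fun c => θ (xi c)) hxi (fun c => by rw [h3]; exact hr c)
  have key2 := congrArg w.V.valuation key
  rw [map_mul, map_mul, hu f hf, hu g hg, mul_one, mul_one, map_pow, map_zpow₀] at key2
  exact key2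

theorem ORD_cl_image {s s' : Set L₁} (hs : s.Finite) (hss : s ⊆ s') (θ : cl K s' →ₐ[K] L₂)
    (T : Set L₂) (h : ∀ b : cl K s', (b : L₁) ∈ s → θ b ∈ T) (a : cl K s')
    (ha : (a : L₁) ∈ cl K s) : θ a ∈ cl K T := by
  have hfin : {b : cl K s' | (b : L₁) ∈ s}.Finite := hs.preimage Subtype.val_injective.injOn
  have h4 : (Subtype.val '' {b : cl K s' | (b : L₁) ∈ s} : Set L₁) = s := by
    ext x
    constructor
    · rintro ⟨b, hb, rfl⟩
      exact hb
    · intro hx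
      exact ⟨⟨x, mem_cl_of_mem (hss hx)⟩, hx, rfl⟩
  have h3 := map_mem_cl_val _ θ hfin (a := a) (by rw [h4]; exact ha)
  refine cl_mono ?_ h3
  rintro _ ⟨b, hb, rfl⟩
  exact h b hb

/-- the tail of the walk in the closure and its image -/
theorem ORD_tail_image {n : ℕ} {P : Ideal (MvPolynomial (Fin n ⊕ Fin n) K)} {m i : ℕ} {τ : Bool}
    (huniq : Uniq P m) (M : IntermediateField K L₁) (θ : M →ₐ[K] L₂) (w₁ : ℕ → Fin n → L₁)
    (w₂ : ℕ → Fin n → L₂) (hw₁ : IsWalk P τ m w₁) (hn₁ : NB m w₁) (hw₂ : IsWalk P τ m w₂)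
    (hn₂ : NB m w₂) (hM : ∀ j ≤ m, ∀ c, w₁ j c ∈ M)
    (h0 : ∀ (c : Fin n) (b : M), (b : L₁) = w₁ 0 c → θ b = w₂ 0 c)
    (hm : ∀ (c : Fin n) (b : M), (b : L₁) = w₁ m c → θ b = w₂ m c) (hi : i ≤ m) :
    ∀ (c : Fin n) (b : M), (b : L₁) = w₁ i c → θ b = w₂ i c := by
  classical
  have hu : ∀ (j : ℕ) (c : Fin n), ∃ b : M, j ≤ m → (b : L₁) = w₁ j c := by
    intro j c
    by_cases hj : j ≤ m
    · exact ⟨⟨_, hM j hj c⟩, fun _ => rfl⟩
    · exact ⟨0, fun h => absurd h hj⟩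
  choose u hu using hu
  have hwalk : IsWalk P τ m (fun j c => θ (u j c)) := by
    intro j hj
    apply ORD_edge_map θ
    rw [← ORD_edge_map_iff M.val]
    have h4 : (fun c => M.val (u j c)) = w₁ j := funext fun c => hu j c hj.le
    have h5 : (fun c => M.val (u (j + 1) c)) = w₁ (j + 1) := funext fun c => hu (j + 1) c hj
    rw [h4, h5]
    exact hw₁ j hj
  have hnb : NB m (fun j c => θ (u j c)) := by
    intro j hj heq
    apply hn₁ j hj
    funext c
    rw [← hu j c (by omega), ← hu (j + 2) c (by omega), θ.injective (congrFun heq c)]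
  have huq := huniq L₂ τ m m (fun j c => θ (u j c)) w₂ (by omega) hwalk hw₂ hnb hn₂
    (funext fun c => h0 c _ (hu 0 c (Nat.zero_le _))) rfl
    (funext fun c => hm c _ (hu m c le_rfl))
  intro c b hb
  have h3 := congrFun (huq.2 i hi) c
  have h4 : b = u i c := Subtype.ext (by rw [hb, hu i c hi])
  rw [h4]
  exact h3

end alg

section

variable {K : Type u} [Field K] [IsAlgClosed K] {n m : ℕ} {S : SysT K n m} {σ : Bool} {i : ℕ}
  {L₁ L₂ : Type u} [Field L₁] [Algebra K L₁] [Field L₂] [Algebra K L₂]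
  {w₁ : KVal K L₁} {w₂ : KVal K L₂} {v₁ : ℕ → Fin n → L₁} {v₂ : ℕ → Fin n → L₂}

theorem ORD_transport (hGNB : ST_GNB.{u}) (hENDS : ST_ENDS.{u}) (hPL1 : ST_PL1.{u})
    (hPL3 : ST_PL3.{u}) (hTYPE : ST_TYPE.{u}) (D : RData S) [IsAlgClosed L₁] [IsAlgClosed L₂]
    (h₁ : ORD_XC S w₁ σ i v₁) (h₂ : ORD_XC S w₂ σ i v₂)
    (ξ₀ : Fin n → cl K (pts v₁ (Set.Iic i) ∪ Set.range (v₁ (m + 1 + i))))
    (hξ₀ : ∀ c, (ξ₀ c : L₁) = v₁ (i - 1) c) (Q : ℕ) (B : ℤ)
    (f g : MvPolynomial (Fin n) (cl K (pts v₁ (Set.Iic i) ∪ Set.range (v₁ (m + 1 + i)))))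
    (hf : aeval ξ₀ f ≠ 0) (hg : aeval ξ₀ g ≠ 0)
    (e : (aeval (Sum.elim (v₁ 0) (v₁ (m + 1))) (D.R σ)) ^ Q * aeval (v₁ (i + 1)) g =
        (v₁ (i + 1) (S.t (ty σ (i + 1))) - v₁ (i - 1) (S.t (ty σ (i + 1)))) ^ B *
          aeval (v₁ (i + 1)) f) :
    w₂.V.valuation (aeval (Sum.elim (v₂ 0) (v₂ (m + 1))) (D.R σ)) ^ Q =
      w₂.V.valuation (v₂ (i + 1) (S.t (ty σ (i + 1))) - v₂ (i - 1) (S.t (ty σ (i + 1)))) ^ B := by
  classical
  have h1 := h₁.one_le
  have h2 := h₁.le_m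
  obtain ⟨θ, hθv, hθq⟩ := hTYPE K n m S L₁ L₂ σ (ty σ (m + 1 + i)) (i + 1) v₁ v₂
    (v₁ (m + 1 + i)) (v₂ (m + 1 + i)) (fun j hj => h₁.pre.walk j (by omega))
    (fun j hj => h₂.pre.walk j (by omega))
    (ORD_walk_vtx h₁.pre.walk (by omega) (j := 0) (by omega))
    (ORD_walk_vtx h₂.pre.walk (by omega) (j := 0) (by omega))
    (ORD_walk_vtx h₁.pre.walk (by omega) le_rfl) (ORD_walk_vtx h₂.pre.walk (by omega) le_rfl)
    (ORD_rkT' hGNB hENDS hPL1 hPL3 h₁) (ORD_rkT' hGNB hENDS hPL1 hPL3 h₂)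
  have htm := ORD_tail_mem hGNB hENDS h₁
  have hT₂ := ORD_triv hGNB hENDS hPL1 h₂
  have hss : pts v₁ (Set.Iic i) ∪ Set.range (v₁ (m + 1 + i)) ⊆
      pts v₁ (Set.Iic (i + 1)) ∪ Set.range (v₁ (m + 1 + i)) :=
    Set.union_subset_union_left _ (ORD_pts_mono v₁ (Set.Iic_subset_Iic.mpr (Nat.le_succ i)))
  have hmemv : ∀ j ≤ i + 1, ∀ c,
      v₁ j c ∈ cl K (pts v₁ (Set.Iic (i + 1)) ∪ Set.range (v₁ (m + 1 + i))) :=
    fun j hj c => mem_cl_of_mem (Or.inl (ORD_mem_pts.mpr ⟨j, hj, c, rfl⟩))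
  have hend := ORD_tail_image (i := m - i) S.uniq _ θ _ _ (ORD_tail_walk h₁)
    (ORD_tail_nb hGNB h₁) (ORD_tail_walk h₂) (ORD_tail_nb hGNB h₂) htm
    (hθv (i + 1) le_rfl) (by
      intro c b hb
      have e2 : i + 1 + m = m + 1 + i := by omega
      rw [e2] at hb ⊢
      exact hθq c b hb) (by omega)
  have e3 : i + 1 + (m - i) = m + 1 := by omega
  have hmem1 : ∀ c, v₁ (m + 1) c ∈
      cl K (pts v₁ (Set.Iic (i + 1)) ∪ Set.range (v₁ (m + 1 + i))) := by
    intro c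
    have h3 := htm (m - i) (by omega) c
    rw [e3] at h3
    exact h3
  simp only [e3] at hend
  have ha0 : ∀ c, ∃ b : cl K (pts v₁ (Set.Iic (i + 1)) ∪ Set.range (v₁ (m + 1 + i))),
      (b : L₁) = v₁ 0 c := fun c => ⟨⟨_, hmemv 0 (by omega) c⟩, rfl⟩
  choose a0 ha0 using ha0
  have ha1 : ∀ c, ∃ b : cl K (pts v₁ (Set.Iic (i + 1)) ∪ Set.range (v₁ (m + 1 + i))),
      (b : L₁) = v₁ (m + 1) c := fun c => ⟨⟨_, hmem1 c⟩, rfl⟩
  choose a1 ha1 using ha1
  have hai : ∀ c, ∃ b : cl K (pts v₁ (Set.Iic (i + 1)) ∪ Set.range (v₁ (m + 1 + i))),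
      (b : L₁) = v₁ (i + 1) c := fun c => ⟨⟨_, hmemv (i + 1) le_rfl c⟩, rfl⟩
  choose ai hai using hai
  have ham : ∀ c, ∃ b : cl K (pts v₁ (Set.Iic (i + 1)) ∪ Set.range (v₁ (m + 1 + i))),
      (b : L₁) = v₁ (i - 1) c := fun c => ⟨⟨_, hmemv (i - 1) (by omega) c⟩, rfl⟩
  choose am ham using ham
  have b0 : (fun c => θ (a0 c)) = v₂ 0 := funext fun c => hθv 0 (by omega) c _ (ha0 c)
  have b1 : (fun c => θ (a1 c)) = v₂ (m + 1) := funext fun c => hend c _ (ha1 c)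
  have bi : ∀ c, θ (ai c) = v₂ (i + 1) c := fun c => hθv (i + 1) le_rfl c _ (hai c)
  have bm : ∀ c, θ (am c) = v₂ (i - 1) c := fun c => hθv (i - 1) (by omega) c _ (ham c)
  have key := ORD_tr3 w₂ (cl_mono hss) θ a0 a1 ai am (D.R σ) (S.t (ty σ (i + 1))) f g Q B (by
    rw [funext ha0, funext ha1, funext hai, hai, ham]
    exact e) ξ₀ (fun c => by rw [hξ₀, ham]) _ hT₂ (by
      apply ORD_cl_image (ORD_finT m i v₁) hss
      rintro b (hb | ⟨c, hc⟩)
      · obtain ⟨j, hj, c, hc⟩ := ORD_mem_pts.mp hb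
        have hj' : j ≤ i := hj
        refine Or.inl (ORD_mem_pts.mpr ⟨j, hj, c, ?_⟩)
        exact (hθv j (by omega) c _ hc.symm).symm
      · exact Or.inr ⟨c, (hθq c _ hc.symm).symm⟩) (by
      intro c
      rw [bi]
      exact h₂.pre.mem _ (by omega) c) (by
      intro c
      rw [bi, bm]
      exact h₂.back' c) hf hg
  rw [b0, b1, bi, bm] at key
  exact key

end

end Pool.Agent.Helper92.GG
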